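import Mathlib
import Pool.Agent.Q185.CKF.Defs
import Pool.Agent.Q185.CKF.Fin

set_option autoImplicit false

namespace Pool.Agent.Results.MP_89bbb3_gt.NotLocallyConformal

open Pool.Agent.Q185.CKF
open scoped ContDiff

/-- There is a smooth Lorentzian metric `g` on `ℝ³` with a nowhere vanishing normal conformal
Killing field, whose Cotton tensor is nonzero on a dense set, such that no point where the Cotton
tensor is nonzero has an open neighbourhood on which `g` is locally conformally isomorphic to an
open subset of `(ℝ³, g_h)`, for any smooth `h`. -/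
theorem result : ∃ g : Field, IsLorentzian g ∧
    (∃ k : (Fin 3 → ℝ) → Fin 3 → ℝ, IsNormalConformalKilling g k ∧ ∀ p, k p ≠ 0) ∧
    Dense {p | CottonNonzeroAt g p} ∧
    ∀ p, CottonNonzeroAt g p → ∀ h : ℝ → ℝ, ContDiff ℝ ∞ h →
      ¬ LocallyConformalAt g (gh h) p := by
  refine ⟨g4, lor_g4, ⟨kt, normal_kt, fun p h => ?_⟩, dense_g4, fun p hp h hh => ?_⟩
  · have := congrFun h 2
    simp [kt] at this
  · exact not_conf p ((cotton_iff p).mp hp) h hh

end Pool.Agent.Results.MP_89bbb3_gt.NotLocallyConformal
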